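import Pool.Agent.Q64.RL.Stm

/-!
# Project RL: the inductive step
-/

set_option autoImplicit false

open Finset MvPolynomial WithZero

namespace Pool.Agent.Q277.RL

open Pool.Agent.Q64.RL

lemma rind_reindex {k E Γ : Type} [Field k] [Field E] [Algebra k E]
    [LinearOrderedCommGroupWithZero Γ] (v : Valuation E Γ) {J J' : Type} (y : J → E) (s : Set J)
    (y' : J' → E) (s' : Set J') (f : s ≃ s') (h : ∀ j : s, y' (f j) = y j)
    (hr : RInd k v y s) : RInd k v y' s' := by
  intro G hG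
  have h1 := hr (rename f.symm G) (by
    intro h0
    apply hG
    apply rename_injective _ f.symm.injective
    rw [h0, map_zero])
  rw [aeval_rename] at h1
  have h2 : (fun j : s' => y' j) = (fun j : s => y j) ∘ f.symm := by
    funext j
    simp [← h]
  rw [h2]
  exact h1

/-- the index sets -/
def eqv {ι : Type} (o e : ι) (he : e ≠ o) :
    ({j : {i // i ≠ o} | j ≠ ⟨e, he⟩} : Set {i // i ≠ o}) ≃ ({i | i ≠ o ∧ i ≠ e} : Set ι) where
  toFun j := ⟨j.1.1, j.1.2, fun h => j.2 (Subtype.ext h)⟩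
  invFun i := ⟨⟨i.1, i.2.1⟩, fun h => i.2.2 (congrArg Subtype.val h)⟩
  left_inv _ := rfl
  right_inv _ := rfl

lemma rind_one {k E Γ : Type} [Field k] [Field E] [Algebra k E]
    [LinearOrderedCommGroupWithZero Γ] {v : Valuation E Γ} {J : Type} {y : J → E} {s : Set J}
    (hr : RInd k v y s) (j : J) (hj : j ∈ s) : v (y j) = 1 := by
  have := hr (X ⟨j, hj⟩) (X_ne_zero _)
  rwa [aeval_X] at this

/-- the degree of the residue point in terms of the images -/
lemma range_eq {ι κ : Type} (o e : ι) (he : e ≠ o) (a : ι → κ) (b : {i // i ≠ o} → κ)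
    (h : ∀ i : {i // i ≠ o}, i.1 ≠ e → b i = a i.1) :
    (Set.range fun i : {i : {i // i ≠ e} // i ≠ ⟨o, he.symm⟩} => a i.1.1) =
      b '' {j | j ≠ ⟨e, he⟩} := by
  ext z
  constructor
  · rintro ⟨i, rfl⟩
    have h1 : i.1.1 ≠ o := fun h => i.2 (Subtype.ext h)
    refine ⟨⟨i.1.1, h1⟩, ?_, ?_⟩
    · intro h2
      exact i.1.2 (congrArg Subtype.val h2)
    · exact h _ i.1.2
  · rintro ⟨j, hj, rfl⟩
    have h1 : j.1 ≠ e := fun h => hj (Subtype.ext h)
    refine ⟨⟨⟨j.1, h1⟩, fun h2 => j.2 (congrArg Subtype.val h2)⟩, ?_⟩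
    exact (h _ h1).symm

lemma sum_one {V : Type} [DecidableEq V] (T : Finset V) (P : V → Prop) [DecidablePred P]
    (g : V → ℕ) (A : ℕ) (h1 : ∀ v ∈ T, P v → g v = A ∧ A ≠ 0)
    (h2 : ∀ v ∈ T, ∀ v' ∈ T, P v → P v' → v' = v) (h3 : A ≠ 0 → ∃ v ∈ T, P v) :
    ∑ v ∈ T.filter P, g v = A := by
  by_cases hA : A = 0
  · have : T.filter P = ∅ := by
      rw [Finset.filter_eq_empty_iff]
      intro v hv hP
      exact (h1 v hv hP).2 hA
    rw [this, Finset.sum_empty, hA]
  · obtain ⟨v, hv, hP⟩ := h3 hA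
    have : T.filter P = {v} := by
      ext v'
      rw [Finset.mem_filter, Finset.mem_singleton]
      constructor
      · rintro ⟨h4, h5⟩
        exact h2 v hv v' h4 hP h5
      · rintro rfl
        exact ⟨hv, hP⟩
    rw [this, Finset.sum_singleton]
    exact (h1 v hv hP).1

section

variable {k ι E : Type} [Field k] [Fintype ι] [DecidableEq ι] [Field E] [Algebra k E]

lemma w_le {L : Submodule k (ι → k)} (hNL : NL L) (e : ι) {w : ι → E} (hw : InP L w)
    (v : Valuation E ℤᵐ⁰) (ht : Triv k v) (h : ∀ i, i ≠ e → v (w i) ≤ 1) : ∀ i, v (w i) ≤ 1 := by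
  intro i
  by_cases hi : i = e
  · subst hi
    obtain ⟨u, hu, hui⟩ := hNL.1 i
    have h1 := hw u hu
    rw [← Finset.add_sum_erase _ _ (Finset.mem_univ i)] at h1
    have h2 : algebraMap k E (u i) * w i =
        - ∑ j ∈ Finset.univ.erase i, algebraMap k E (u j) * w j := by
      linear_combination h1
    have h3 : v (algebraMap k E (u i) * w i) ≤ 1 := by
      rw [h2, Valuation.map_neg]
      apply Valuation.map_sum_le
      intro j hj
      rw [map_mul]
      have h4 := h j (Finset.ne_of_mem_erase hj)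
      by_cases hc : u j = 0
      · rw [hc, map_zero, map_zero, zero_mul]
        exact zero_le_one
      · rw [ht _ hc, one_mul]
        exact h4
    rwa [map_mul, ht _ hui, one_mul] at h3
  · exact h i hi

end

theorem stp (hplc : S_plc) (htrd : S_trd) (hmod : S_mod) (hflt : S_flt) (hint : S_int)
    (hgdi : S_gdi) (hded : S_ded) (htya : S_tya) (htyb : S_tyb) (hbas : S_bas) (hzfa : S_zfa) :
    S_stp := by
  classical
  intro k ι _ _ _ _ L o e he A B hNL hA hB hAB E _ _ x w hG
  have hxo := hG.xo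
  obtain ⟨hA1, v0, hv0s, hv0t, hv0x, hv0w, hv0e, hv0⟩ := htya k ι E L o e x w he hNL hG
  obtain ⟨hB1, hB2⟩ := htyb k ι E L o e x w he hNL hG
  have hLo : ∃ v ∈ L, v o ≠ 0 := hNL.1 o
  -- existence of a place of type A
  have exA : A ≠ 0 → ∃ v, TypeA k o e x w v := by
    intro hA0
    obtain ⟨κ, _, _, ρ, hρ⟩ := hplc k E ℤᵐ⁰ v0 hv0t
    obtain ⟨h1, h2⟩ := hv0 κ ρ hρ
    exact ⟨v0, h2 ((hA κ _ _ h1).2 hA0).1⟩
  -- existence of a place of type B
  have exB : B ≠ 0 → ∃ v, TypeB k o e x w v := by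
    intro hB0
    have hu : ∃ u ∈ L, u o = 0 ∧ u e ≠ 0 := by
      by_contra hcon
      exact hB0 (hAB hcon)
    have hoo : ∃ u ∈ L, u e = 0 ∧ u o ≠ 0 := by
      obtain ⟨u, hu, huo, hue⟩ := hu
      obtain ⟨u', hu', huo'⟩ := hNL.1 o
      refine ⟨u' - (u' e / u e) • u, L.sub_mem hu' (L.smul_mem _ hu), ?_, ?_⟩
      · simp only [Pi.sub_apply, Pi.smul_apply, smul_eq_mul]
        field_simp
        ring
      · simp only [Pi.sub_apply, Pi.smul_apply, smul_eq_mul, huo, mul_zero, sub_zero]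
        exact huo'
    have hloop : ∀ i, i ≠ e → ∃ u ∈ L, u e = 0 ∧ u i ≠ 0 := by
      intro i hi
      by_contra hcon
      push Not at hcon
      obtain ⟨u, hu1, hue, huo⟩ := hoo
      have hcon1 : (fun j : {i // i ≠ e} => u j.1) ∈ con L e := by
        refine ⟨u, ⟨hu1, hue⟩, rfl⟩
      obtain ⟨E', _, _, x', w', hG'⟩ := hmod k {i // i ≠ e} (con L e) ⟨o, he.symm⟩
        ⟨_, hcon1, huo⟩
      have hgood := ((hB E' x' w' hG').2 hB0).1
      have hio : i ≠ o := by
        intro h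
        apply huo
        rw [← h]
        exact hcon u hu1 hue
      have hxi : x' ⟨i, hi⟩ = 0 := by
        have h1 := hG'.hx (Pi.single ⟨i, hi⟩ 1) (by
          rintro t ⟨t', ⟨ht1, ht2⟩, rfl⟩
          have ht3 : t' e = 0 := ht2
          have ht4 := hcon t' ht1 ht3
          rw [Finset.sum_eq_single (⟨i, hi⟩ : {i // i ≠ e})]
          · simp [LinearMap.funLeft_apply, ht4]
          · intro b _ hb
            rw [Pi.single_eq_of_ne hb, mul_zero]
          · intro h
            exact absurd (Finset.mem_univ _) h)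
        rw [Finset.sum_eq_single (⟨i, hi⟩ : {i // i ≠ e})] at h1
        · simpa using h1
        · intro b _ hb
          rw [Pi.single_eq_of_ne hb, map_zero, zero_mul]
        · intro h
          exact absurd (Finset.mem_univ _) h
      have hne := hgood.ne_zero ⟨⟨i, hi⟩, fun h => hio (congrArg Subtype.val h)⟩
      apply hne
      simp only [hxi]
      ring
    obtain ⟨v, h1, h2, h3, h4, h5, h6⟩ := hB2 hloop
    obtain ⟨κ, _, _, ρ, hρ⟩ := hplc k E ℤᵐ⁰ v h2
    obtain ⟨h7, h8⟩ := h6 κ ρ hρ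
    exact ⟨v, h8 ((hB κ _ _ h7).2 hB0).1⟩
  -- reindexing
  have toJ : ∀ v : Valuation E ℤᵐ⁰, RInd k v (fun i => x i ^ 2 * w i) {i | i ≠ o ∧ i ≠ e} →
      RInd k v (fun i : {i // i ≠ o} => x i ^ 2 * w i) {j | j ≠ ⟨e, he⟩} := fun v h =>
    rind_reindex v _ _ _ _ (eqv o e he).symm (fun _ => rfl) h
  have ofJ : ∀ v : Valuation E ℤᵐ⁰,
      RInd k v (fun i : {i // i ≠ o} => x i ^ 2 * w i) {j | j ≠ ⟨e, he⟩} →
      RInd k v (fun i => x i ^ 2 * w i) {i | i ≠ o ∧ i ≠ e} := fun v h =>
    rind_reindex v _ _ _ _ (eqv o e he) (fun _ => rfl) h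
  -- values at the coordinate
  have yA : ∀ v, TypeA k o e x w v → v (x e ^ 2 * w e) = exp (-1) := by
    intro v hv
    rw [map_mul, map_pow, hv.x1, one_pow, one_mul, (hA1 v hv).1]
  have yB : ∀ v, TypeB k o e x w v → v (x e ^ 2 * w e) = exp (-2) := by
    intro v hv
    obtain ⟨_, h1, h2, _⟩ := hB1 v hv
    rw [map_mul, map_pow, h1, h2, mul_one, ← exp_nsmul]
    rfl
  have lt1 : (exp (-1 : ℤ) : ℤᵐ⁰) < 1 := by
    rw [← exp_zero, exp_lt_exp]
    norm_num
  have lt2 : (exp (-2 : ℤ) : ℤᵐ⁰) < 1 := by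
    rw [← exp_zero, exp_lt_exp]
    norm_num
  -- part I
  have partI : Good k o x w → dg k o x w = A + 2 * B ∧ A + 2 * B ≠ 0 := by
    intro hgood
    obtain ⟨B0, hB0, hoB0⟩ := (hbas k ι L o hLo).1
    have hz := hzfa k ι E L B0 o x w hB0 hoB0 hG
    have hfd : FiniteDimensional (IntermediateField.adjoin k
        (Set.range fun i : {i // i ≠ o} => x i ^ 2 * w i)) E :=
      ((htrd k E _ _ _ (fun i : {i // i ≠ o} => x i ^ 2 * w i) hz.2 hgood).2 rfl).2
    obtain ⟨T, r, f, hT, hr, hf, hsum⟩ := hded k E {i // i ≠ o}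
      (fun i : {i // i ≠ o} => x i ^ 2 * w i) ⟨e, he⟩ hgood hfd
    have hdg : dg k o x w = ∑ v ∈ T, r v * f v := hsum
    have hpos : 0 < dg k o x w := by
      unfold dg
      exact Module.finrank_pos
    -- classification
    have hcl : ∀ v ∈ T, TypeA k o e x w v ∨ TypeB k o e x w v := by
      intro v hv
      obtain ⟨hs, ht, hlt, hri⟩ := (hT v).1 hv
      have hri' := ofJ v hri
      have hle : ∀ i, i ≠ o → v (x i ^ 2 * w i) ≤ 1 := by
        intro i hi
        by_cases hie : i = e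
        · rw [hie]; exact hlt.le
        · exact (rind_one hri' i ⟨hi, hie⟩).le
      have hwo : v (w o) ≤ 1 := by
        have := hint k ι E ℤᵐ⁰ L o x w v (by rw [hxo]; exact one_ne_zero) hG.hx hG.hw ht hle
        rwa [hxo, one_pow, one_mul] at this
      obtain ⟨hx1, hxe⟩ := hflt k ι E ℤᵐ⁰ L o e x w v he (hNL.2 e) hxo hG.hx hG.hw ht hri' hlt hwo
      have hw1 : ∀ i, i ≠ e → v (w i) ≤ 1 := by
        intro i hi
        by_cases hio : i = o
        · rw [hio]; exact hwo
        · have h1 := rind_one hri' i ⟨hio, hi⟩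
          rw [map_mul, map_pow, hx1 i hi, one_pow, one_mul] at h1
          exact h1.le
      have hw2 := w_le hNL e hG.hw v ht hw1
      rcases hxe.lt_or_eq with hxe | hxe
      · right
        exact ⟨hs, ht, hx1, hxe, hw2, hri'⟩
      · left
        refine ⟨hs, ht, ?_, hw2, ?_, hri'⟩
        · intro i
          by_cases hi : i = e
          · rw [hi]; exact hxe
          · exact hx1 i hi
        · have hlt' : v (x e ^ 2 * w e) < 1 := hlt
          rwa [map_mul, map_pow, hxe, one_pow, one_mul] at hlt'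
    have hexcl : ∀ v, TypeA k o e x w v → ¬ TypeB k o e x w v := by
      intro v h1 h2
      exact absurd (h1.x1 e) h2.xe.ne
    have inT : ∀ v : Valuation E ℤᵐ⁰, Function.Surjective v → Triv k v → v (x e ^ 2 * w e) < 1 →
        RInd k v (fun i => x i ^ 2 * w i) {i | i ≠ o ∧ i ≠ e} → v ∈ T := by
      intro v h1 h2 h3 h4
      exact (hT v).2 ⟨h1, h2, h3, toJ v h4⟩
    -- the contribution of type A
    have cA : ∀ v ∈ T, TypeA k o e x w v → r v * f v = A ∧ A ≠ 0 := by
      intro v hv hvA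
      obtain ⟨h1, _, h2⟩ := hA1 v hvA
      obtain ⟨κ, _, _, ρ, hρ⟩ := hplc k E ℤᵐ⁰ v hvA.triv
      obtain ⟨h3, h4⟩ := h2 κ ρ hρ
      have hr1 : r v = 1 := by
        have h5 := hr v hv
        have h6 : v (x e ^ 2 * w e) = exp (-(r v : ℤ)) := h5
        rw [yA v hvA] at h6
        have := exp_injective h6
        omega
      have hA0 : A ≠ 0 := fun h0 => (hA κ _ _ h3).1 h0 h4
      have hf1 : f v = A := by
        rw [hf v hv κ ρ hρ, ← ((hA κ _ _ h3).2 hA0).2]
        unfold dg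
        rw [range_eq o e he (fun i => ρ (x i) ^ 2 * ρ (w i))
          (fun j : {i // i ≠ o} => ρ (x j ^ 2 * w j))]
        intro i hi
        have hx1 := (hvA.x1 i).le
        have hw1 := hvA.w1 i
        rw [hρ.mul _ _ (by rw [map_pow, hvA.x1, one_pow]) hw1, sq, hρ.mul _ _ hx1 hx1, sq]
      rw [hr1, hf1, one_mul]
      exact ⟨rfl, hA0⟩
    have cB : ∀ v ∈ T, TypeB k o e x w v → r v * f v = 2 * B ∧ 2 * B ≠ 0 := by
      intro v hv hvB
      obtain ⟨_, h1, h1', _, h2⟩ := hB1 v hvB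
      obtain ⟨κ, _, _, ρ, hρ⟩ := hplc k E ℤᵐ⁰ v hvB.triv
      obtain ⟨h3, h4⟩ := h2 κ ρ hρ
      have hr1 : r v = 2 := by
        have h5 := hr v hv
        have h6 : v (x e ^ 2 * w e) = exp (-(r v : ℤ)) := h5
        rw [yB v hvB] at h6
        have := exp_injective h6
        omega
      have hB0 : B ≠ 0 := fun h0 => (hB κ _ _ h3).1 h0 h4
      have hf1 : f v = B := by
        rw [hf v hv κ ρ hρ, ← ((hB κ _ _ h3).2 hB0).2]
        unfold dg
        rw [range_eq o e he (fun i => ρ (x i) ^ 2 * ρ (w i))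
          (fun j : {i // i ≠ o} => ρ (x j ^ 2 * w j))]
        intro i hi
        have hx1 := (hvB.x1 i hi).le
        have hw1 := hvB.w1 i
        rw [hρ.mul _ _ (by rw [map_pow, hvB.x1 i hi, one_pow]) hw1, sq, hρ.mul _ _ hx1 hx1, sq]
      rw [hr1, hf1]
      exact ⟨rfl, by omega⟩
    have sA : ∑ v ∈ T.filter (fun v => TypeA k o e x w v), r v * f v = A := by
      apply sum_one T _ _ A cA
      · intro v _ v' _ h1 h2
        exact (hA1 v h1).2.1 v' h2
      · intro hA0
        obtain ⟨v, hv⟩ := exA hA0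
        refine ⟨v, inT v hv.surj hv.triv ?_ hv.ri, hv⟩
        rw [yA v hv]
        exact lt1
    have sB : ∑ v ∈ T.filter (fun v => ¬ TypeA k o e x w v), r v * f v = 2 * B := by
      apply sum_one T _ _ (2 * B)
      · intro v hv h1
        exact cB v hv ((hcl v hv).resolve_left h1)
      · intro v hv v' hv' h1 h2
        exact (hB1 v ((hcl v hv).resolve_left h1)).2.2.2.1 v' ((hcl v' hv').resolve_left h2)
      · intro hB0
        obtain ⟨v, hv⟩ := exB (by omega)
        refine ⟨v, inT v hv.surj hv.triv ?_ hv.ri, fun h => hexcl v h hv⟩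
        rw [yB v hv]
        exact lt2
    have htot : dg k o x w = A + 2 * B := by
      rw [hdg, ← Finset.sum_filter_add_sum_filter_not T (fun v => TypeA k o e x w v), sA, sB]
    exact ⟨htot, by omega⟩
  -- part II
  have partII : A + 2 * B ≠ 0 → Good k o x w := by
    intro h0
    obtain ⟨B0, hB0, hoB0, heB0⟩ := (hbas k ι L o hLo).2.1 e he (hNL.2 e)
    have hz := (hzfa k ι E L B0 o x w hB0 hoB0 hG).1.ne_zero ⟨e, he⟩
    have hwe : w e ≠ 0 := by
      simpa [zf, heB0] using hz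
    by_cases hA0 : A = 0
    · have hB0 : B ≠ 0 := by omega
      obtain ⟨v, hv⟩ := exB hB0
      have hxe : x e ≠ 0 := by
        intro h1
        have h2 := (hB1 v hv).2.1
        rw [h1, map_zero] at h2
        exact exp_ne_zero h2.symm
      apply hgdi k E {i // i ≠ o} (fun i : {i // i ≠ o} => x i ^ 2 * w i) ⟨e, he⟩ v hv.triv
      · exact mul_ne_zero (pow_ne_zero _ hxe) hwe
      · change v (x e ^ 2 * w e) < 1
        rw [yB v hv]
        exact lt2
      · exact toJ v hv.ri
    · obtain ⟨v, hv⟩ := exA hA0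
      have hxe : x e ≠ 0 := by
        intro h1
        have h2 := hv.x1 e
        rw [h1, map_zero] at h2
        exact zero_ne_one h2
      apply hgdi k E {i // i ≠ o} (fun i : {i // i ≠ o} => x i ^ 2 * w i) ⟨e, he⟩ v hv.triv
      · exact mul_ne_zero (pow_ne_zero _ hxe) hwe
      · change v (x e ^ 2 * w e) < 1
        rw [yA v hv]
        exact lt1
      · exact toJ v hv.ri
  constructor
  · intro h0 hg
    exact (partI hg).2 h0
  · intro h0
    exact ⟨partII h0, (partI (partII h0)).1⟩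

end Pool.Agent.Q277.RL
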