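import Pool.Agent.Q277.RL.STP

/-!
# Project RL: places of type A
-/

set_option autoImplicit false

open Finset MvPolynomial WithZero

namespace Pool.Agent.Q277.RL

open Pool.Agent.Q64.RL

section

variable {k ι E : Type} [Field k] [Fintype ι] [DecidableEq ι] [Field E] [Algebra k E]

/-- a coordinate of a generic point is not zero -/
lemma x_ne (hbas : S_bas) (hzfa : S_zfa) {L : Submodule k (ι → k)} {o : ι} {x w : ι → E}
    (hNL : NL L) (hG : Gen L o x w) (i : ι) : x i ≠ 0 := by
  by_cases h : ∃ v ∈ L, v o = 0 ∧ v i ≠ 0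
  · obtain ⟨B, hB, ho, hi⟩ := (hbas k ι L o (hNL.1 o)).2.2 i h
    have hio : i ≠ o := by
      intro hio
      obtain ⟨v, _, h1, h2⟩ := h
      rw [hio] at h2
      exact h2 h1
    have := (hzfa k ι E L B o x w hB ho hG).1.ne_zero ⟨i, hio⟩
    simpa [zf, hi] using this
  · push Not at h
    obtain ⟨v, hv, hvo⟩ := hNL.1 o
    obtain ⟨u, hu, hui⟩ := hNL.1 i
    have hrel : ∀ t ∈ L, t i = (v i / v o) * t o := by
      intro t ht
      have h1 := h (t - (t o / v o) • v) (L.sub_mem ht (L.smul_mem _ hv)) (by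
        simp only [Pi.sub_apply, Pi.smul_apply, smul_eq_mul]
        field_simp
        ring)
      simp only [Pi.sub_apply, Pi.smul_apply, smul_eq_mul] at h1
      linear_combination h1
    have hc : v i / v o ≠ 0 := by
      intro hc
      rw [hrel u hu, hc, zero_mul] at hui
      exact hui rfl
    have hx := hG.hx (Pi.single i 1 - (v i / v o) • Pi.single o 1) (by
      intro t ht
      have h1 := hrel t ht
      simp only [Pi.sub_apply, Pi.smul_apply, smul_eq_mul, mul_sub, Finset.sum_sub_distrib,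
        Pi.single_apply, mul_ite, mul_one, mul_zero, Finset.sum_ite_eq', Finset.mem_univ, if_true]
      rw [h1]
      ring)
    simp only [Pi.sub_apply, Pi.smul_apply, smul_eq_mul, map_sub, sub_mul, Finset.sum_sub_distrib,
        Pi.single_apply, mul_ite, mul_one, mul_zero] at hx
    simp only [apply_ite (algebraMap k E), map_one, map_zero, ite_mul, one_mul, zero_mul,
      Finset.sum_ite_eq', Finset.mem_univ, if_true] at hx
    rw [hG.xo, mul_one, sub_eq_zero] at hx
    rw [hx]
    exact (map_ne_zero _).2 hc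

lemma x_mem {o : ι} {B : Finset ι} {c : ι → ι → k} {x w : ι → E} (S : Subalgebra k E)
    (hS : ∀ j, j ≠ o → j ∈ B → x j ∈ S) (hxo : x o = 1)
    (hc : ∀ j ∉ B, x j = ∑ i ∈ B, algebraMap k E (c j i) * x i) (i : ι) : x i ∈ S := by
  have h1 : ∀ j ∈ B, x j ∈ S := by
    intro j hj
    by_cases hjo : j = o
    · rw [hjo, hxo]; exact S.one_mem
    · exact hS j hjo hj
  by_cases hi : i ∈ B
  · exact h1 i hi
  · rw [hc i hi]
    exact S.sum_mem fun j hj => S.mul_mem (S.algebraMap_mem _) (h1 j hj)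

lemma w_mem {B : Finset ι} {c : ι → ι → k} {w : ι → E} (S : Subalgebra k E)
    (hS : ∀ j, j ∉ B → w j ∈ S)
    (hc : ∀ i ∈ B, w i = - ∑ j ∈ Bᶜ, algebraMap k E (c j i) * w j) (i : ι) : w i ∈ S := by
  by_cases hi : i ∈ B
  · rw [hc i hi]
    exact S.neg_mem (S.sum_mem fun j hj => S.mul_mem (S.algebraMap_mem _)
      (hS j (Finset.mem_compl.1 hj)))
  · exact hS i hi

/-- a linear relation passes to the residues -/
lemma lin_res (hplb : S_plb) {Γ κ : Type} [LinearOrderedCommGroupWithZero Γ] [Field κ]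
    [Algebra k κ] {v : Valuation E Γ} {ρ : E → κ} (hρ : Place k v ρ) (y : ι → E)
    (hy : ∀ i, v (y i) ≤ 1) (a : ι → k) :
    ρ (∑ i, algebraMap k E (a i) * y i) = ∑ i, algebraMap k κ (a i) * ρ (y i) := by
  have h := ((hplb k E Γ κ v ρ hρ ι y hy).1 (∑ i, C (a i) * X i)).2
  simpa using h

lemma rho_zero {Γ κ : Type} [LinearOrderedCommGroupWithZero Γ] [Field κ]
    [Algebra k κ] {v : Valuation E Γ} {ρ : E → κ} (hρ : Place k v ρ) : ρ 0 = 0 := by
  have := hρ.alg 0
  simpa using this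

lemma inL_res (hplb : S_plb) {Γ κ : Type} [LinearOrderedCommGroupWithZero Γ] [Field κ]
    [Algebra k κ] {v : Valuation E Γ} {ρ : E → κ} (hρ : Place k v ρ) {L : Submodule k (ι → k)}
    {x : ι → E} (hx : InL L x) (h1 : ∀ i, v (x i) ≤ 1) : InL L (fun i => ρ (x i)) := by
  intro a ha
  rw [← lin_res hplb hρ x h1 a, hx a ha, rho_zero hρ]

lemma inP_res (hplb : S_plb) {Γ κ : Type} [LinearOrderedCommGroupWithZero Γ] [Field κ]
    [Algebra k κ] {v : Valuation E Γ} {ρ : E → κ} (hρ : Place k v ρ) {L : Submodule k (ι → k)}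
    {w : ι → E} (hw : InP L w) (h1 : ∀ i, v (w i) ≤ 1) : InP L (fun i => ρ (w i)) := by
  intro u hu
  rw [← lin_res hplb hρ w h1 u, hw u hu, rho_zero hρ]

/-- sums over the complement of one index -/
lemma sum_ne {M : Type} [AddCommMonoid M] (e : ι) (f : ι → M) (h : f e = 0) :
    ∑ i, f i = ∑ i : {i // i ≠ e}, f i := by
  rw [← Finset.sum_subtype (Finset.univ.erase e) (by simp) f, Finset.sum_erase _ h]

lemma inL_del (hperp : S_perp) {L : Submodule k (ι → k)} (e : ι) {x : ι → E} (hx : InL L x) :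
    InL (del L e) (fun i : {i // i ≠ e} => x i) := by
  intro a ha
  have h1 := (hperp k ι L).2.2.1 e a ha
  have h2 := hx _ h1
  rw [sum_ne e _ (by simp)] at h2
  rw [← h2]
  apply Finset.sum_congr rfl
  intro i _
  rw [dif_pos i.2]

lemma inP_del {L : Submodule k (ι → k)} (e : ι) {w : ι → E} (hw : InP L w) (he : w e = 0) :
    InP (del L e) (fun i : {i // i ≠ e} => w i) := by
  rintro u ⟨u', hu', rfl⟩
  have h2 := hw u' hu'
  rw [sum_ne e _ (by rw [he, mul_zero])] at h2
  exact h2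

/-- the residue field is generated by the residues -/
lemma gen_res (hplb : S_plb) {Γ κ : Type} [LinearOrderedCommGroupWithZero Γ] [Field κ]
    [Algebra k κ] {v : Valuation E Γ} {ρ : E → κ} (hρ : Place k v ρ) {J : Type} (z : J → E)
    (s : Set J) (hz : ∀ j, v (z j) ≤ 1) (hr : RInd k v z s)
    (h2 : ∀ a, v a ≤ 1 → ∃ b ∈ IntermediateField.adjoin k (z '' s), v (a - b) < 1)
    (F : IntermediateField k κ) (hF : ∀ j ∈ s, ρ (z j) ∈ F) : F = ⊤ := by
  rw [eq_top_iff]
  rintro c -
  obtain ⟨a, ha, rfl⟩ := hρ.surj c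
  obtain ⟨b, hb, hab⟩ := h2 a ha
  have hb1 : v b ≤ 1 := by
    have : b = a - (a - b) := by ring
    rw [this]
    exact (v.map_sub _ _).trans (max_le ha hab.le)
  have hρab : ρ a = ρ b := by
    have h3 : ρ (a - b) = 0 := (hρ.zero _ hab.le).2 hab
    have h4 := hρ.add b (a - b) hb1 hab.le
    rw [h3, add_zero] at h4
    rw [← h4]
    congr 1
    ring
  rw [hρab]
  obtain ⟨P, hP, Q, hQ, hPQ⟩ := IntermediateField.mem_adjoin_iff_div.1 hb
  rw [Set.image_eq_range, Algebra.adjoin_range_eq_range_aeval] at hP hQ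
  obtain ⟨GP, hGP⟩ := hP
  obtain ⟨GQ, hGQ⟩ := hQ
  have hpl := (hplb k E Γ κ v ρ hρ s (fun j => z j) (fun j => hz j)).1
  have hP' : aeval (fun j : s => z j) GP = P := hGP
  have hQ' : aeval (fun j : s => z j) GQ = Q := hGQ
  by_cases hQ0 : GQ = 0
  · have : b = 0 := by
      rw [hPQ, ← hQ', hQ0, map_zero, div_zero]
    rw [this, rho_zero hρ]
    exact F.zero_mem
  · have hvQ : v Q = 1 := by
      rw [← hQ']
      exact hr GQ hQ0
    have hQne : Q ≠ 0 := by
      intro h
      rw [h, map_zero] at hvQ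
      exact zero_ne_one hvQ
    have hmem : ∀ G : MvPolynomial s k, ρ (aeval (fun j : s => z j) G) ∈ F := by
      intro G
      rw [(hpl G).2]
      have h3 : aeval (fun j : s => ρ (z j)) G ∈
          Algebra.adjoin k (Set.range fun j : s => ρ (z j)) := by
        rw [Algebra.adjoin_range_eq_range_aeval]
        exact ⟨G, rfl⟩
      have h4 : Algebra.adjoin k (Set.range fun j : s => ρ (z j)) ≤ F.toSubalgebra := by
        rw [Algebra.adjoin_le_iff]
        rintro _ ⟨j, rfl⟩
        exact hF j j.2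
      exact h4 h3
    have h5 : b * Q = P := by
      rw [hPQ]
      field_simp
    have h6 : ρ b * ρ Q = ρ P := by
      rw [← hρ.mul _ _ hb1 hvQ.le, h5]
    have h7 : ρ Q ≠ 0 := by
      intro h
      have := (hρ.zero Q hvQ.le).1 h
      rw [hvQ] at this
      exact lt_irrefl _ this
    have h8 : ρ b = ρ P / ρ Q := by
      field_simp
      exact h6
    rw [h8]
    apply F.div_mem
    · rw [← hP']; exact hmem GP
    · rw [← hQ']; exact hmem GQ

/-- algebraic independence and generation by the other family -/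
lemma ind_of_ind (htrd : S_trd) {κ : Type} [Field κ] [Algebra k κ] {J J' : Type} [Fintype J]
    [Fintype J'] (hcard : Fintype.card J' = Fintype.card J) (s : J → κ) (t : J' → κ)
    (ht : AlgebraicIndependent k t)
    (hmem : ∀ j, t j ∈ IntermediateField.adjoin k (Set.range s)) : AlgebraicIndependent k s := by
  set F := IntermediateField.adjoin k (Set.range s) with hF
  have hsF : ∀ j, s j ∈ F := fun j => IntermediateField.subset_adjoin _ _ ⟨j, rfl⟩
  have h1 : AlgebraicIndependent k (fun j => (⟨t j, hmem j⟩ : F)) := by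
    rw [← AlgHom.algebraicIndependent_iff F.val F.val.injective]
    exact ht
  have h2 : IntermediateField.adjoin k (Set.range fun j => (⟨s j, hsF j⟩ : F)) = ⊤ := by
    apply IntermediateField.map_injective F.val
    rw [IntermediateField.adjoin_map, ← AlgHom.fieldRange_eq_map, IntermediateField.fieldRange_val,
      ← Set.range_comp]
    exact hF.symm
  have h3 := ((htrd k F J J' _ _ h2 h1).2 hcard).1
  rw [← AlgHom.algebraicIndependent_iff F.val F.val.injective] at h3
  exact h3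

end

theorem tya (hplc : S_plc) (hplb : S_plb) (htrd : S_trd) (hperp : S_perp) (hbas : S_bas)
    (hcoo : S_coo) (hzfa : S_zfa) (hres : S_res) (hexv : S_exv) : S_tya := by
  classical
  intro k ι E _ _ _ _ _ L o e x w he hNL hG
  have hxo := hG.xo
  obtain ⟨B, hB, hoB, heB⟩ := (hbas k ι L o (hNL.1 o)).2.1 e he (hNL.2 e)
  obtain ⟨c, hc⟩ := hcoo k ι L B hB
  obtain ⟨hzi, hzg⟩ := hzfa k ι E L B o x w hB hoB hG
  have hze : zf B x w e = w e := by simp [zf, heB]
  have hcx := (hc E x w).1.1 hG.hx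
  have hcw := (hc E x w).2.1 hG.hw
  -- the coordinates are polynomials
  have hxz : ∀ i, x i ∈ Algebra.adjoin k
      (Set.range fun j : ({j | j ≠ ⟨e, he⟩} : Set {i // i ≠ o}) => zf B x w j.1) := by
    intro i
    refine x_mem (w := w) _ ?_ hxo hcx i
    intro j hjo hjB
    apply Algebra.subset_adjoin
    refine ⟨⟨⟨j, hjo⟩, ?_⟩, ?_⟩
    · intro h
      apply heB
      have : j = e := congrArg Subtype.val h
      rw [← this]; exact hjB
    · simp [zf, hjB]
  have hwz : ∀ i, w i ∈ Algebra.adjoin k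
      (Set.range fun j : {i // i ≠ o} => zf B x w j) := by
    intro i
    refine w_mem _ ?_ hcw i
    intro j hjB
    apply Algebra.subset_adjoin
    have hjo : j ≠ o := by
      intro h
      rw [h] at hjB
      exact hjB hoB
    refine ⟨⟨j, hjo⟩, ?_⟩
    simp [zf, hjB]
  -- membership of the residues
  have hresmem : ∀ (κ : Type) [Field κ] [Algebra k κ] (x' w' : ι → κ), InL L x' → InP L w' →
      x' o = 1 → w' e = 0 → ∀ S : Subalgebra k κ,
      (∀ j : {i // i ≠ o}, j ≠ ⟨e, he⟩ → zf B x' w' j ∈ S) → (∀ i, x' i ∈ S) ∧ ∀ i, w' i ∈ S := by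
    intro κ _ _ x' w' hx' hw' hxo' hwe' S hS
    constructor
    · intro i
      refine x_mem (w := w') _ ?_ hxo' ((hc κ x' w').1.1 hx') i
      intro j hjo hjB
      have := hS ⟨j, hjo⟩ (by
        intro h
        apply heB
        have : j = e := congrArg Subtype.val h
        rw [← this]; exact hjB)
      simpa [zf, hjB] using this
    · intro i
      refine w_mem _ ?_ ((hc κ x' w').2.1 hw') i
      intro j hjB
      by_cases hje : j = e
      · rw [hje, hwe']; exact S.zero_mem
      · have hjo : j ≠ o := by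
          intro h
          rw [h] at hjB
          exact hjB hoB
        have := hS ⟨j, hjo⟩ (fun h => hje (congrArg Subtype.val h))
        simpa [zf, hjB] using this
  -- the core
  have core : ∀ v : Valuation E ℤᵐ⁰, Triv k v → v (w e) < 1 →
      RInd k v (fun j : {i // i ≠ o} => zf B x w j) {j | j ≠ ⟨e, he⟩} →
      (∀ i, v (x i) = 1) ∧ (∀ i, v (w i) ≤ 1) ∧
      ∀ (κ : Type) [Field κ] [Algebra k κ] (ρ : E → κ), Place k v ρ →
      Gen (del L e) ⟨o, he.symm⟩ (fun i => ρ (x i)) (fun i => ρ (w i)) := by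
    intro v ht hwe hr
    have hz1 : ∀ j : {i // i ≠ o}, v (zf B x w j) ≤ 1 := by
      intro j
      by_cases hj : j = ⟨e, he⟩
      · rw [hj, hze]; exact hwe.le
      · exact (rind_one hr j hj).le
    have hx1 : ∀ i, v (x i) = 1 := by
      intro i
      have h1 := hxz i
      rw [Algebra.adjoin_range_eq_range_aeval] at h1
      obtain ⟨G, hG1⟩ := h1
      have hG2 : aeval (fun j : ({j | j ≠ ⟨e, he⟩} : Set {i // i ≠ o}) => zf B x w j.1) G =
        x i := hG1
      have hG0 : G ≠ 0 := by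
        intro h0
        rw [h0, map_zero] at hG2
        exact x_ne hbas hzfa hNL hG i hG2.symm
      rw [← hG2]
      exact hr G hG0
    have hw1 : ∀ i, v (w i) ≤ 1 := by
      intro i
      obtain ⟨κ, _, _, ρ, hρ⟩ := hplc k E ℤᵐ⁰ v ht
      have h1 := hwz i
      rw [Algebra.adjoin_range_eq_range_aeval] at h1
      obtain ⟨G, hG1⟩ := h1
      have hG2 : aeval (fun j : {i // i ≠ o} => zf B x w j) G = w i := hG1
      rw [← hG2]
      exact ((hplb k E ℤᵐ⁰ κ v ρ hρ _ _ hz1).1 G).1
    refine ⟨hx1, hw1, ?_⟩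
    intro κ _ _ ρ hρ
    have hx' := inL_res hplb hρ hG.hx (fun i => (hx1 i).le)
    have hw' := inP_res hplb hρ hG.hw hw1
    have hxo' : ρ (x o) = 1 := by
      rw [hxo]
      have := hρ.alg 1
      simpa using this
    have hwe' : ρ (w e) = 0 := (hρ.zero _ (hw1 e)).2 hwe
    refine ⟨hxo', inL_del hperp e hx', inP_del e hw' hwe', ?_, ?_⟩
    · apply gen_res hplb hρ (fun j : {i // i ≠ o} => zf B x w j) {j | j ≠ ⟨e, he⟩} hz1 hr
        (hres k E {i // i ≠ o} _ ⟨e, he⟩ hzi hzg v ht (by rw [hze]; exact hwe) hr).2.1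
      intro j hj
      apply IntermediateField.subset_adjoin
      have hje : j.1 ≠ e := fun h => hj (Subtype.ext h)
      by_cases hjB : j.1 ∈ B
      · left
        refine ⟨⟨j.1, hje⟩, ?_⟩
        simp [zf, hjB]
      · right
        refine ⟨⟨j.1, hje⟩, ?_⟩
        simp [zf, hjB]
    · have h1 := ((hplb k E ℤᵐ⁰ κ v ρ hρ _ _ hz1).2 _).1 hr
      refine ⟨fun i => ρ (zf B x w i.1.1), ?_⟩
      let f : {i : {i // i ≠ e} // i ≠ ⟨o, he.symm⟩} ≃
          ({j : {i // i ≠ o} | j ≠ ⟨e, he⟩} : Set {i // i ≠ o}) :=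
        { toFun := fun i => ⟨⟨i.1.1, fun h => i.2 (Subtype.ext h)⟩,
            fun h => i.1.2 (congrArg Subtype.val h)⟩
          invFun := fun j => ⟨⟨j.1.1, fun h => j.2 (Subtype.ext h)⟩,
            fun h => j.1.2 (congrArg Subtype.val h)⟩
          left_inv := fun _ => rfl
          right_inv := fun _ => rfl }
      exact (algebraicIndependent_equiv' f (g := fun i => ρ (zf B x w i.1.1)) rfl).2 h1
  -- Good and residues
  have good : ∀ v : Valuation E ℤᵐ⁰, (∀ i, v (x i) = 1) → (∀ i, v (w i) ≤ 1) →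
      ∀ (κ : Type) [Field κ] [Algebra k κ] (ρ : E → κ), Place k v ρ →
      (Good k (⟨o, he.symm⟩ : {i // i ≠ e}) (fun i => ρ (x i)) (fun i => ρ (w i)) ↔
        RInd k v (fun i => x i ^ 2 * w i) {i | i ≠ o ∧ i ≠ e}) := by
    intro v hx1 hw1 κ _ _ ρ hρ
    have hy1 : ∀ i, v (x i ^ 2 * w i) ≤ 1 := by
      intro i
      rw [map_mul, map_pow, hx1, one_pow, one_mul]
      exact hw1 i
    rw [(hplb k E ℤᵐ⁰ κ v ρ hρ ι _ hy1).2]
    let f : {i : {i // i ≠ e} // i ≠ ⟨o, he.symm⟩} ≃ ({i | i ≠ o ∧ i ≠ e} : Set ι) :=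
      { toFun := fun i => ⟨i.1.1, fun h => i.2 (Subtype.ext h), i.1.2⟩
        invFun := fun j => ⟨⟨j.1, j.2.2⟩, fun h => j.2.1 (congrArg Subtype.val h)⟩
        left_inv := fun _ => rfl
        right_inv := fun _ => rfl }
    unfold Good
    apply algebraicIndependent_equiv' f
    funext i
    simp only [Function.comp]
    have h1 := (hx1 i.1.1).le
    change ρ (x i.1.1 ^ 2 * w i.1.1) = ρ (x i.1.1) ^ 2 * ρ (w i.1.1)
    rw [hρ.mul _ _ (by rw [map_pow, hx1, one_pow]) (hw1 _), sq, hρ.mul _ _ h1 h1, sq]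
  -- the residues of the coordinate family
  have key : ∀ v, TypeA k o e x w v →
      RInd k v (fun j : {i // i ≠ o} => zf B x w j) {j | j ≠ ⟨e, he⟩} := by
    intro v hv
    have hz1 : ∀ j : {i // i ≠ o}, v (zf B x w j) ≤ 1 := by
      intro j
      by_cases hj : j.1 ∈ B
      · simp only [zf, hj, if_true]; exact (hv.x1 _).le
      · simp only [zf, hj, if_false]; exact hv.w1 _
    obtain ⟨κ, _, _, ρ, hρ⟩ := hplc k E ℤᵐ⁰ v hv.triv
    rw [(hplb k E ℤᵐ⁰ κ v ρ hρ _ _ hz1).2]
    have hgood := (good v hv.x1 hv.w1 κ ρ hρ).2 hv.ri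
    have hx' := inL_res hplb hρ hG.hx (fun i => (hv.x1 i).le)
    have hw' := inP_res hplb hρ hG.hw hv.w1
    have hxo' : ρ (x o) = 1 := by
      rw [hxo]
      have := hρ.alg 1
      simpa using this
    have hwe' : ρ (w e) = 0 := (hρ.zero _ (hv.w1 e)).2 hv.we
    refine ind_of_ind htrd ?_ (fun j : ({j | j ≠ ⟨e, he⟩} : Set {i // i ≠ o}) =>
      ρ (zf B x w j.1)) _ hgood ?_
    · apply Fintype.card_congr
      exact
        { toFun := fun i => ⟨⟨i.1.1, fun h => i.2 (Subtype.ext h)⟩,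
            fun h => i.1.2 (congrArg Subtype.val h)⟩
          invFun := fun j => ⟨⟨j.1.1, fun h => j.2 (Subtype.ext h)⟩,
            fun h => j.1.2 (congrArg Subtype.val h)⟩
          left_inv := fun _ => rfl
          right_inv := fun _ => rfl }
    · intro i
      have h1 := hresmem κ (fun i => ρ (x i)) (fun i => ρ (w i)) hx' hw' hxo' hwe'
        (IntermediateField.adjoin k (Set.range
          (fun j : ({j | j ≠ ⟨e, he⟩} : Set {i // i ≠ o}) => ρ (zf B x w j.1)))).toSubalgebra (by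
          intro j hj
          apply IntermediateField.subset_adjoin
          refine ⟨⟨j, hj⟩, ?_⟩
          by_cases hjB : j.1 ∈ B
          · simp [zf, hjB]
          · simp [zf, hjB])
      exact mul_mem (pow_mem (h1.1 i.1.1) 2) (h1.2 i.1.1)
  constructor
  · intro v hv
    have hr := key v hv
    have hR := hres k E {i // i ≠ o} _ ⟨e, he⟩ hzi hzg v hv.triv (by rw [hze]; exact hv.we) hr
    have hval : v (w e) = exp (-1) := by
      have := hR.2.2.1 hv.surj
      rwa [hze] at this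
    refine ⟨hval, ?_, ?_⟩
    · intro v' hv'
      have hr' := key v' hv'
      have hR' := hres k E {i // i ≠ o} _ ⟨e, he⟩ hzi hzg v' hv'.triv
        (by rw [hze]; exact hv'.we) hr'
      have hval' : v' (w e) = exp (-1) := by
        have := hR'.2.2.1 hv'.surj
        rwa [hze] at this
      exact hR.2.2.2 v' hv'.triv (by rw [hze, hval, hval']) hr'
    · intro κ _ _ ρ hρ
      exact ⟨(core v hv.triv hv.we hr).2.2 κ ρ hρ, (good v hv.x1 hv.w1 κ ρ hρ).2 hv.ri⟩
  · obtain ⟨v, hs, ht, hval, hr⟩ := hexv k E {i // i ≠ o} _ ⟨e, he⟩ hzi hzg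
    have hwe : v (w e) < 1 := by
      rw [hze] at hval
      rw [hval, ← exp_zero, exp_lt_exp]
      norm_num
    obtain ⟨h1, h2, h3⟩ := core v ht hwe hr
    refine ⟨v, hs, ht, h1, h2, hwe, ?_⟩
    intro κ _ _ ρ hρ
    refine ⟨h3 κ ρ hρ, ?_⟩
    intro hgood
    exact ⟨hs, ht, h1, h2, hwe, (good v h1 h2 κ ρ hρ).1 hgood⟩

end Pool.Agent.Q277.RL
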